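import Pool.Agent.Work.MP_e8a478_co.Final
import Pool.Agent.Work.MP_e8a478_co.FO

/-!
# Unique coupleability of an independent coupling with one limit object: a positive answer to Q1

Conventions (see `Pool.Agent.Work.MP_e8a478_co.Defs`):

* `Lang` is a finite relational language (relation symbols with arities), `Str L V` the type of
  `L`-structures with vertex set `V`;
* `Theory L` is a canonical theory, given by its finite models: a class of structures on the sets
  `Fin n` closed under isomorphism and under induced substructures.  The finite models of a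
  universal first-order theory form such a class (`Theory.ofFO`), and `Theory.union` is the union
  of the theories (`ofFO_union`);
* densities are labelled: `dens M N` is the probability that a uniformly random injection from the
  vertices of `M` to the vertices of `N` pulls `N` back to exactly `M`.  It equals
  `(|Aut M| / |M|!) p(M, N)`.  This is the normalisation in which the independent coupling is given
  by the product formula `M ↦ φ₁(M|T₁) φ₂(M|T₂)`;
* `Hom T` is the set of limit objects, `marg₁`, `marg₂` the marginals, `indep` the independent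
  coupling, and `UC T₁ T₂ φ₁ φ₂` says that the couplings of `φ₁` and `φ₂` are exactly the
  independent coupling.
-/

namespace Pool.Agent.Results.MP_e8a478_co.CouplingClosed

open Pool.MP_e8a478_co

/-- If `φ₁, ψ` are uniquely coupleable and `φ₂, ψ` are uniquely coupleable, then the independent
coupling `φ₁ ⊗ φ₂` and `ψ` are uniquely coupleable. -/
theorem result (L₁ L₂ L₃ : Lang) (T₁ : Theory L₁) (T₂ : Theory L₂) (T₃ : Theory L₃)
    (φ₁ : Fam L₁) (φ₂ : Fam L₂) (ψ : Fam L₃)
    (h₁ : φ₁ ∈ Hom T₁) (h₂ : φ₂ ∈ Hom T₂) (h₃ : ψ ∈ Hom T₃)
    (u₁ : UC T₁ T₃ φ₁ ψ) (u₂ : UC T₂ T₃ φ₂ ψ) :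
    UC (T₁.union T₂) T₃ (indep φ₁ φ₂) ψ :=
  q1 T₁ T₂ T₃ h₁ h₂ h₃ u₁ u₂

end Pool.Agent.Results.MP_e8a478_co.CouplingClosed
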